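import Mathlib

set_option autoImplicit false

/-! # Dimensions `d` and orders `n` with few prime factors -/

namespace Pool.Agent.U200.NT1

/-- `(m - 1) (m + 1) = p ^ j` for an odd prime `p` -/
theorem square_minus_one {p : ℕ} (hp : p.Prime) (hp2 : p ≠ 2) {m j : ℕ} (h : p ^ j + 1 = m ^ 2) :
    p ^ j = 3 := by
  have hm : 2 ≤ m := by
    by_contra hm
    have : m = 0 ∨ m = 1 := by omega
    have hpos : 0 < p ^ j := pow_pos hp.pos _
    rcases this with rfl | rfl
    · rw [zero_pow two_ne_zero] at h; omega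
    · rw [one_pow] at h; omega
  obtain ⟨r, rfl⟩ : ∃ r, m = r + 1 := ⟨m - 1, by omega⟩
  have h1 : p ^ j = r * (r + 2) := by
    have : (r + 1) ^ 2 = r * (r + 2) + 1 := by ring
    omega
  obtain ⟨x, -, hx⟩ := (Nat.dvd_prime_pow hp).1 (Dvd.intro _ h1.symm)
  obtain ⟨y, -, hy⟩ := (Nat.dvd_prime_pow hp).1 (Dvd.intro_left _ h1.symm)
  rcases Nat.eq_zero_or_pos x with hx0 | hx0
  · subst hx0
    rw [pow_zero] at hx
    rw [h1, hx]
    norm_num
  · exfalso
    have h2 : p ∣ r := by rw [hx]; exact dvd_pow_self p hx0.ne'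
    have h3 : p ∣ r + 2 := by
      rw [hy]
      refine dvd_pow_self p ?_
      rintro rfl
      rw [pow_zero] at hy
      omega
    have h4 : p ∣ 2 := (Nat.dvd_add_right h2).1 h3
    exact hp2 ((Nat.prime_dvd_prime_iff_eq hp Nat.prime_two).1 h4)

/-- two consecutive numbers whose product is `2 ^ x p ^ y` -/
theorem consecutive {p : ℕ} (hp : p.Prime) {t : ℕ} {x y : ℕ}
    (h : t * (t + 1) = 2 ^ x * p ^ y) :
    ∃ u v, (t = 2 ^ u ∧ t + 1 = p ^ v) ∨ (t = p ^ v ∧ t + 1 = 2 ^ u) := by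
  obtain ⟨a1, b1, ha1, hb1, hab1⟩ := (Nat.dvd_mul).1 (Dvd.intro _ h)
  obtain ⟨a2, b2, ha2, hb2, hab2⟩ := (Nat.dvd_mul).1 (Dvd.intro_left _ h)
  obtain ⟨x1, -, rfl⟩ := (Nat.dvd_prime_pow Nat.prime_two).1 ha1
  obtain ⟨y1, -, rfl⟩ := (Nat.dvd_prime_pow hp).1 hb1
  obtain ⟨x2, -, rfl⟩ := (Nat.dvd_prime_pow Nat.prime_two).1 ha2
  obtain ⟨y2, -, rfl⟩ := (Nat.dvd_prime_pow hp).1 hb2
  have c2 : x1 = 0 ∨ x2 = 0 := by
    by_contra hcon
    push Not at hcon
    have h1 : 2 ∣ t := by rw [← hab1]; exact Dvd.dvd.mul_right (dvd_pow_self 2 hcon.1) _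
    have h2 : 2 ∣ t + 1 := by rw [← hab2]; exact Dvd.dvd.mul_right (dvd_pow_self 2 hcon.2) _
    omega
  have cp : y1 = 0 ∨ y2 = 0 := by
    by_contra hcon
    push Not at hcon
    have h1 : p ∣ t := by rw [← hab1]; exact Dvd.dvd.mul_left (dvd_pow_self p hcon.1) _
    have h2 : p ∣ t + 1 := by rw [← hab2]; exact Dvd.dvd.mul_left (dvd_pow_self p hcon.2) _
    exact hp.one_lt.ne' (Nat.dvd_one.1 ((Nat.dvd_add_right h1).1 h2))
  rcases c2 with rfl | rfl <;> rcases cp with rfl | rfl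
  · -- `t = 1`
    refine ⟨1, 0, Or.inr ⟨?_, ?_⟩⟩
    · rw [← hab1]; simp
    · rw [← hab1]; simp
  · refine ⟨x2, y1, Or.inr ⟨?_, ?_⟩⟩
    · rw [← hab1]; simp
    · rw [← hab2]; simp
  · refine ⟨x1, y2, Or.inl ⟨?_, ?_⟩⟩
    · rw [← hab1]; simp
    · rw [← hab2]; simp
  · exfalso
    simp at hab2
    have h0 : t = 0 := by omega
    rw [h0, zero_mul] at h
    have := pow_pos hp.pos y
    have h2 := pow_pos (n := x) Nat.two_pos
    have := Nat.mul_pos h2 this
    omega

/-- Orders `n` with at most one odd prime factor. -/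
theorem classify {d n : ℕ} (hd : 3 ≤ d) (hdn : d ∣ n)
    (hD : ∀ D m, Squarefree D → d + 1 = D * m ^ 2 → D ∣ n ∧ (Even D → 8 ∣ n))
    {p k a : ℕ} (hp : p.Prime) (hp2 : p ≠ 2) (hn : n ∣ 2 ^ k * p ^ a) :
    d = 3 ∨ (8 ∣ n ∧ (∃ j, d = p ^ j) ∧ ∃ m, d + 1 = 2 * m ^ 2) ∨
    (∃ t u v, d = 4 * (t * (t + 1)) ∧ ((t = 2 ^ u ∧ t + 1 = p ^ v) ∨ (t = p ^ v ∧ t + 1 = 2 ^ u))) ∨
    (∃ i m, d = 2 ^ i ∧ d + 1 = p * m ^ 2) := by
  obtain ⟨a1, b1, ha1, hb1, hab1⟩ := (Nat.dvd_mul).1 (hdn.trans hn)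
  obtain ⟨i, -, rfl⟩ := (Nat.dvd_prime_pow Nat.prime_two).1 ha1
  obtain ⟨j, -, rfl⟩ := (Nat.dvd_prime_pow hp).1 hb1
  obtain ⟨D, m, hDm, hDsq⟩ := Nat.sq_mul_squarefree (d + 1)
  have hDm' : d + 1 = D * m ^ 2 := by rw [← hDm]; ring
  obtain ⟨hDn, hD8⟩ := hD D m hDsq hDm'
  obtain ⟨a2, b2, ha2, hb2, hab2⟩ := (Nat.dvd_mul).1 (hDn.trans hn)
  obtain ⟨x, -, rfl⟩ := (Nat.dvd_prime_pow Nat.prime_two).1 ha2
  obtain ⟨y, -, rfl⟩ := (Nat.dvd_prime_pow hp).1 hb2
  have hx : x = 0 ∨ x = 1 := by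
    by_contra hcon
    have h1 : 2 ≤ x := by omega
    have h2 : 2 * 2 ∣ D := by
      rw [← hab2]
      refine Dvd.dvd.mul_right ?_ _
      rw [← pow_two]
      exact pow_dvd_pow 2 h1
    have h3 := hDsq 2 h2
    rw [Nat.isUnit_iff] at h3
    omega
  have hy : y = 0 ∨ y = 1 := by
    by_contra hcon
    have h1 : 2 ≤ y := by omega
    have h2 : p * p ∣ D := by
      rw [← hab2]
      refine Dvd.dvd.mul_left ?_ _
      rw [← pow_two]
      exact pow_dvd_pow p h1
    have h3 := hDsq p h2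
    rw [Nat.isUnit_iff] at h3
    exact hp.one_lt.ne' h3
  rcases Nat.eq_zero_or_pos i with rfl | hi
  · -- `d` is a power of `p`
    have hdj : d = p ^ j := by rw [← hab1]; simp
    have hj : j ≠ 0 := by
      rintro rfl
      rw [pow_zero] at hdj
      omega
    have hpd : p ∣ d := by rw [hdj]; exact dvd_pow_self p hj
    have hy0 : y = 0 := by
      rcases hy with h | h
      · exact h
      · exfalso
        have h1 : p ∣ d + 1 := by
          rw [hDm', ← hab2, h, pow_one]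
          exact Dvd.dvd.mul_right (Dvd.intro_left _ rfl) _
        exact hp.one_lt.ne' (Nat.dvd_one.1 ((Nat.dvd_add_right hpd).1 h1))
    rw [hy0, pow_zero, mul_one] at hab2
    rcases hx with h | h
    · left
      rw [h, pow_zero] at hab2
      rw [← hab2, one_mul] at hDm'
      rw [hdj]
      exact square_minus_one hp hp2 (by rw [← hdj]; exact hDm')
    · right; left
      rw [h, pow_one] at hab2
      refine ⟨hD8 (by rw [← hab2]; exact even_two), ⟨j, hdj⟩, m, ?_⟩
      rw [hDm', ← hab2]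
  · have h2d : 2 ∣ d := by rw [← hab1]; exact Dvd.dvd.mul_right (dvd_pow_self 2 hi.ne') _
    have hx0 : x = 0 := by
      rcases hx with h | h
      · exact h
      · exfalso
        have h1 : 2 ∣ d + 1 := by
          rw [hDm', ← hab2, h, pow_one]
          exact Dvd.dvd.mul_right (Dvd.intro _ rfl) _
        omega
    rw [hx0, pow_zero, one_mul] at hab2
    rcases hy with h | h
    · right; right; left
      rw [h, pow_zero] at hab2
      rw [← hab2, one_mul] at hDm'
      rcases Nat.even_or_odd' m with ⟨t, ht | ht⟩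
      · exfalso
        have : d + 1 = 2 * (2 * t * t) := by rw [hDm', ht]; ring
        omega
      · have hdt : d = 4 * (t * (t + 1)) := by
          have : d + 1 = 4 * (t * (t + 1)) + 1 := by rw [hDm', ht]; ring
          omega
        have h2 : ∃ i', i = i' + 2 := by
          obtain ⟨f, hf⟩ := Nat.even_mul_succ_self t
          by_contra hcon
          have hi1 : i = 1 := by
            by_contra h1
            exact hcon ⟨i - 2, by omega⟩
          rw [hi1, pow_one] at hab1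
          have h3 : Odd (p ^ j) := (hp.odd_of_ne_two hp2).pow
          obtain ⟨g, hg⟩ := h3
          rw [hg] at hab1
          omega
        obtain ⟨i', rfl⟩ := h2
        have h3 : t * (t + 1) = 2 ^ i' * p ^ j := by
          have h4 : 4 * (t * (t + 1)) = 4 * (2 ^ i' * p ^ j) := by
            rw [← hdt, ← hab1]; ring
          omega
        obtain ⟨u, v, huv⟩ := consecutive hp h3
        exact ⟨t, u, v, hdt, huv⟩
    · right; right; right
      rw [h, pow_one] at hab2
      have hj : j = 0 := by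
        by_contra hj
        have hpd : p ∣ d := by rw [← hab1]; exact Dvd.dvd.mul_left (dvd_pow_self p hj) _
        have h1 : p ∣ d + 1 := by
          rw [hDm', ← hab2]
          exact Dvd.intro _ rfl
        exact hp.one_lt.ne' (Nat.dvd_one.1 ((Nat.dvd_add_right hpd).1 h1))
      refine ⟨i, m, ?_, ?_⟩
      · rw [← hab1, hj]; simp
      · rw [hDm', ← hab2]

/-- Orders dividing `4 p ^ a`. -/
theorem four {d n : ℕ} (hd : 3 ≤ d) (hdn : d ∣ n)
    (hD : ∀ D m, Squarefree D → d + 1 = D * m ^ 2 → D ∣ n ∧ (Even D → 8 ∣ n))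
    {p a : ℕ} (hp : p.Prime) (hn : n ∣ 4 * p ^ a) :
    (d = 3 ∧ p = 3) ∨ (d = 4 ∧ p = 5) ∨ (d = 8 ∧ p = 2) := by
  by_cases hp2 : p = 2
  · subst hp2
    right; right
    refine ⟨?_, rfl⟩
    have hn' : n ∣ 2 ^ (a + 2) := by
      have : 4 * 2 ^ a = 2 ^ (a + 2) := by ring
      rw [← this]; exact hn
    obtain ⟨i, -, hi⟩ := (Nat.dvd_prime_pow Nat.prime_two).1 (hdn.trans hn')
    obtain ⟨D, m, hDm, hDsq⟩ := Nat.sq_mul_squarefree (d + 1)
    have hDm' : d + 1 = D * m ^ 2 := by rw [← hDm]; ring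
    obtain ⟨hDn, -⟩ := hD D m hDsq hDm'
    obtain ⟨x, -, hx⟩ := (Nat.dvd_prime_pow Nat.prime_two).1 (hDn.trans hn')
    have hi0 : i ≠ 0 := by
      rintro rfl
      rw [pow_zero] at hi
      omega
    have h2d : 2 ∣ d := by rw [hi]; exact dvd_pow_self 2 hi0
    have hx0 : x = 0 := by
      by_contra hx0
      have h1 : 2 ∣ d + 1 := by
        rw [hDm', hx]
        exact Dvd.dvd.mul_right (dvd_pow_self 2 hx0) _
      omega
    rw [hx0, pow_zero] at hx
    rw [hx, one_mul] at hDm'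
    rcases Nat.even_or_odd' m with ⟨t, ht | ht⟩
    · exfalso
      have : d + 1 = 2 * (2 * t * t) := by rw [hDm', ht]; ring
      omega
    · have hdt : d = 4 * (t * (t + 1)) := by
        have : d + 1 = 4 * (t * (t + 1)) + 1 := by rw [hDm', ht]; ring
        omega
      have ht0 : t ≠ 0 := by
        rintro rfl
        simp at hdt
        omega
      have h3 : t ∣ 2 ^ i := by
        rw [← hi, hdt]
        exact Dvd.dvd.mul_left (Dvd.intro _ rfl) _
      have h4 : t + 1 ∣ 2 ^ i := by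
        rw [← hi, hdt]
        exact Dvd.dvd.mul_left (Dvd.intro_left _ rfl) _
      obtain ⟨u, -, hu⟩ := (Nat.dvd_prime_pow Nat.prime_two).1 h3
      obtain ⟨v, -, hv⟩ := (Nat.dvd_prime_pow Nat.prime_two).1 h4
      have hu0 : u = 0 := by
        by_contra hu0
        have h5 : 2 ∣ t := by rw [hu]; exact dvd_pow_self 2 hu0
        have h6 : 2 ∣ t + 1 := by
          rw [hv]
          refine dvd_pow_self 2 ?_
          rintro rfl
          rw [pow_zero] at hv
          omega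
        omega
      rw [hu0, pow_zero] at hu
      rw [hdt, hu]
      norm_num
  · have h8 : ¬ 8 ∣ n := by
      intro h8
      have h3 : 4 * 2 ∣ 4 * p ^ a := by
        have := h8.trans hn
        norm_num
        exact this
      have h4 : 2 ∣ p ^ a := Nat.dvd_of_mul_dvd_mul_left (by norm_num) h3
      have h5 := Nat.prime_two.dvd_of_dvd_pow h4
      exact hp2 ((Nat.prime_dvd_prime_iff_eq Nat.prime_two hp).1 h5).symm
    have hn' : n ∣ 2 ^ 2 * p ^ a := hn
    rcases classify hd hdn hD hp hp2 hn' with h | ⟨h, -⟩ | ⟨t, u, v, h, -⟩ | ⟨i, m, hi, hm⟩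
    · left
      refine ⟨h, ?_⟩
      have h1 : 3 ∣ 4 * p ^ a := by rw [← h]; exact hdn.trans hn
      have h2 : Nat.Coprime 3 4 := by norm_num
      have h3 : 3 ∣ p ^ a := h2.dvd_of_dvd_mul_left h1
      exact ((Nat.prime_dvd_prime_iff_eq Nat.prime_three hp).1
        (Nat.prime_three.dvd_of_dvd_pow h3)).symm
    · exact absurd h h8
    · exfalso
      obtain ⟨f, hf⟩ := Nat.even_mul_succ_self t
      exact h8 (Dvd.dvd.trans ⟨f, by omega⟩ hdn)
    · right; left
      have hi2 : i ≤ 2 := by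
        by_contra hcon
        have h1 : 2 ^ 3 ∣ d := by rw [hi]; exact pow_dvd_pow 2 (by omega)
        exact h8 (h1.trans hdn)
      have h4 : d = 4 := by
        have : i = 0 ∨ i = 1 ∨ i = 2 := by omega
        rcases this with rfl | rfl | rfl
        · simp at hi; omega
        · simp at hi; omega
        · simpa using hi
      refine ⟨h4, ?_⟩
      have h5 : p ∣ 5 := by
        have : (5 : ℕ) = p * m ^ 2 := by rw [← hm, h4]
        rw [this]; exact Dvd.intro _ rfl
      exact (Nat.prime_dvd_prime_iff_eq hp Nat.prime_five).1 h5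

end Pool.Agent.U200.NT1
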