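import Mathlib
import Pool.Agent.R503.SIC.Base
import Pool.Agent.H109R2.Phases
import Pool.Agent.Results.MP_d0f9e0_co.RootOfUnityPhases

set_option autoImplicit false

/-! # The maximal equiangular tight frame of a Weyl–Heisenberg fiducial -/

namespace Pool.Agent.U200.WH

open Finset Complex Pool.Agent.R503.SIC
open scoped ComplexConjugate

variable {d : ℕ} [NeZero d]

/-- `X ^ a Z ^ b ψ` -/
noncomputable def disp (ψ : ZMod d → ℂ) (p : ZMod d × ZMod d) : ZMod d → ℂ :=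
  fun j => e (p.2 * (j - p.1)) * ψ (j - p.1)

theorem inner_disp (ψ : ZMod d → ℂ) (p q : ZMod d × ZMod d) :
    ∑ j, conj (disp ψ p j) * disp ψ q j =
      e (-(p.2 * (q.1 - p.1))) * ov ψ (q.1 - p.1) (q.2 - p.2) := by
  unfold ov disp
  rw [Finset.mul_sum]
  refine Fintype.sum_equiv (Equiv.subRight q.1) _ _ fun j => ?_
  simp only [Equiv.subRight_apply, map_mul, conj_e]
  have h1 : j - q.1 + (q.1 - p.1) = j - p.1 := by ring
  rw [h1]
  have h2 : e (-(p.2 * (j - p.1))) * e (q.2 * (j - q.1)) =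
      e (-(p.2 * (q.1 - p.1))) * e ((q.2 - p.2) * (j - q.1)) := by
    rw [← e_add, ← e_add]; congr 1; ring
  linear_combination (conj (ψ (j - p.1)) * ψ (j - q.1)) * h2

/-- numbering of the phase space -/
noncomputable def E (d : ℕ) [NeZero d] : Fin (d ^ 2) ≃ ZMod d × ZMod d :=
  Fintype.equivOfCardEq (by simp [ZMod.card, pow_two])

/-- numbering of the coordinates -/
noncomputable def F (d : ℕ) [NeZero d] : Fin d ≃ ZMod d :=
  Fintype.equivOfCardEq (by simp [ZMod.card])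

/-- the orbit of `ψ` -/
noncomputable def orbit (ψ : ZMod d → ℂ) (k : Fin (d ^ 2)) : EuclideanSpace ℂ (Fin d) :=
  WithLp.toLp 2 (fun j => disp ψ (E d k) (F d j))

theorem inner_orbit (ψ : ZMod d → ℂ) (k l : Fin (d ^ 2)) :
    inner ℂ (orbit ψ k) (orbit ψ l) =
      e (-((E d k).2 * ((E d l).1 - (E d k).1))) *
        ov ψ ((E d l).1 - (E d k).1) ((E d l).2 - (E d k).2) := by
  rw [← inner_disp, H109R2.SIC.inner_eq]
  refine Fintype.sum_equiv (F d) _ _ fun j => ?_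
  rfl

theorem isMaxETF {ψ : ZMod d → ℂ} (h : Fid ψ) : H109R2.SIC.IsMaxETF d (orbit ψ) := by
  constructor
  · intro i
    have h1 := inner_orbit ψ i i
    rw [sub_self, sub_self, mul_zero, neg_zero, e_zero, one_mul, ov_zero h.1,
      inner_self_eq_norm_sq_to_K] at h1
    have h1' : ((‖orbit ψ i‖ : ℝ) : ℂ) ^ 2 = 1 := h1
    have h2 : ‖orbit ψ i‖ ^ 2 = 1 := by exact_mod_cast h1'
    have h3 : 0 ≤ ‖orbit ψ i‖ := norm_nonneg _
    nlinarith
  · intro i j hij
    rw [inner_orbit, norm_mul, norm_e, one_mul]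
    have hne : ((E d j).1 - (E d i).1, (E d j).2 - (E d i).2) ≠ (0, 0) := by
      intro h1
      apply hij
      apply (E d).injective
      rw [Prod.mk.injEq] at h1
      exact Prod.ext (sub_eq_zero.1 h1.1).symm (sub_eq_zero.1 h1.2).symm
    have h2 := h.2 _ _ hne
    have h3 : (0 : ℝ) ≤ ‖ov ψ ((E d j).1 - (E d i).1) ((E d j).2 - (E d i).2)‖ := norm_nonneg _
    rw [← Real.sqrt_sq h3, h2, Real.sqrt_div zero_le_one, Real.sqrt_one]

/-- the normalised overlap `√(d+1) ⟨ψ, X ^ a Z ^ b ψ⟩` -/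
noncomputable def chi (ψ : ZMod d → ℂ) (a b : ZMod d) : ℂ :=
  ((Real.sqrt ((d : ℝ) + 1) : ℝ) : ℂ) * ov ψ a b

omit [NeZero d] in
theorem s_ne : ((Real.sqrt ((d : ℝ) + 1) : ℝ) : ℂ) ≠ 0 := by
  have : 0 < Real.sqrt ((d : ℝ) + 1) := Real.sqrt_pos.mpr (by positivity)
  exact_mod_cast this.ne'

omit [NeZero d] in
theorem sq_s : ((Real.sqrt ((d : ℝ) + 1) : ℝ) : ℂ) * ((Real.sqrt ((d : ℝ) + 1) : ℝ) : ℂ) =
    (d : ℂ) + 1 := H109R2.Phases.sq_s

theorem norm_chi {ψ : ZMod d → ℂ} (h : Fid ψ) {a b : ZMod d} (hab : (a, b) ≠ (0, 0)) :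
    ‖chi ψ a b‖ = 1 := by
  unfold chi
  rw [norm_mul]
  have h3 : (0 : ℝ) ≤ ‖ov ψ a b‖ := norm_nonneg _
  rw [← Real.sqrt_sq h3, h.2 a b hab, Real.sqrt_div zero_le_one, Real.sqrt_one,
    Complex.norm_real, Real.norm_eq_abs, abs_of_nonneg (Real.sqrt_nonneg _)]
  have : 0 < Real.sqrt ((d : ℝ) + 1) := Real.sqrt_pos.mpr (by positivity)
  field_simp

theorem conj_chi (ψ : ZMod d → ℂ) (a b : ZMod d) :
    conj (chi ψ a b) = e (b * a) * chi ψ (-a) (-b) := by
  unfold chi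
  rw [map_mul, conj_ov, Complex.conj_ofReal]
  ring

theorem chi_mul_neg {ψ : ZMod d → ℂ} (h : Fid ψ) {a b : ZMod d} (hab : (a, b) ≠ (0, 0)) :
    chi ψ a b * chi ψ (-a) (-b) * e (b * a) = 1 := by
  have h1 : chi ψ a b * conj (chi ψ a b) = 1 := by
    rw [Complex.mul_conj, Complex.normSq_eq_norm_sq, norm_chi h hab]
    simp
  rw [conj_chi] at h1
  linear_combination h1

/-- `ω` lies in the group generated by the phases -/
theorem e_pow {ψ : ZMod d → ℂ} (h : Fid ψ) (hd : 2 ≤ d) {n : ℕ}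
    (hn : ∀ a b, (a, b) ≠ (0, 0) → chi ψ a b ^ n = 1) (x : ZMod d) : e x ^ n = 1 := by
  have : Fact (1 < d) := ⟨by omega⟩
  have h1 : ((1 : ZMod d), (1 : ZMod d)) ≠ (0, 0) := by
    intro h1
    rw [Prod.mk.injEq] at h1
    exact one_ne_zero h1.1
  have h2 : (-(1 : ZMod d), -(1 : ZMod d)) ≠ (0, 0) := by
    intro h1
    rw [Prod.mk.injEq] at h1
    exact one_ne_zero (neg_eq_zero.1 h1.1)
  have h3 := chi_mul_neg h h1
  have h4 : (chi ψ 1 1 * chi ψ (-1) (-1) * e ((1 : ZMod d) * 1)) ^ n = 1 := by rw [h3, one_pow]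
  rw [mul_pow, mul_pow, hn _ _ h1, hn _ _ h2, one_mul, one_mul, one_mul] at h4
  -- `e x = e 1 ^ x.val`
  have h5 : e x = e (1 : ZMod d) ^ x.val := by
    have h6 : ∀ k : ℕ, e ((k : ZMod d)) = e (1 : ZMod d) ^ k := by
      intro k
      induction k with
      | zero => simp [e_zero]
      | succ k ih => rw [Nat.cast_succ, e_add, ih, pow_succ]
    rw [← h6, ZMod.natCast_zmod_val]
  rw [h5, ← pow_mul, mul_comm, pow_mul, h4, one_pow]

theorem dvd_of_e_pow {n : ℕ} (h : e (1 : ZMod d) ^ n = 1) : d ∣ n := by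
  have h6 : ∀ k : ℕ, e ((k : ZMod d)) = e (1 : ZMod d) ^ k := by
    intro k
    induction k with
    | zero => simp [e_zero]
    | succ k ih => rw [Nat.cast_succ, e_add, ih, pow_succ]
  rw [← h6, ← e_zero (d := d)] at h
  exact (ZMod.natCast_eq_zero_iff n d).1 (e_inj h)

/-- the triple products of the orbit -/
theorem phase_eq (ψ : ZMod d → ℂ) (i j k : Fin (d ^ 2)) :
    Results.MP_d0f9e0_co.RootOfUnityPhases.phase (orbit ψ) i j k =
      (e (-((E d i).2 * ((E d j).1 - (E d i).1))) * chi ψ ((E d j).1 - (E d i).1)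
        ((E d j).2 - (E d i).2)) *
      (e (-((E d j).2 * ((E d k).1 - (E d j).1))) * chi ψ ((E d k).1 - (E d j).1)
        ((E d k).2 - (E d j).2)) *
      (e (-((E d k).2 * ((E d i).1 - (E d k).1))) * chi ψ ((E d i).1 - (E d k).1)
        ((E d i).2 - (E d k).2)) := by
  unfold Results.MP_d0f9e0_co.RootOfUnityPhases.phase chi
  rw [inner_orbit, inner_orbit, inner_orbit]
  ring

theorem ne_of {i j : Fin (d ^ 2)} (hij : i ≠ j) :
    ((E d j).1 - (E d i).1, (E d j).2 - (E d i).2) ≠ (0, 0) := by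
  intro h1
  apply hij
  apply (E d).injective
  rw [Prod.mk.injEq] at h1
  exact Prod.ext (sub_eq_zero.1 h1.1).symm (sub_eq_zero.1 h1.2).symm

/-- sign times odd order is inherited by the triple products -/
theorem phase_pow {ψ : ZMod d → ℂ} {n : ℕ} {c : ℂ}
    (hn : ∀ a b, (a, b) ≠ (0, 0) → (c * chi ψ a b) ^ n = 1) (he : ∀ x : ZMod d, e x ^ n = 1)
    (i j k : Fin (d ^ 2)) (hij : i ≠ j) (hjk : j ≠ k) (hki : k ≠ i) :
    (c ^ 3 * Results.MP_d0f9e0_co.RootOfUnityPhases.phase (orbit ψ) i j k) ^ n = 1 := by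
  rw [phase_eq]
  have h : ∀ A B C x y z : ℂ, c ^ 3 * ((x * A) * (y * B) * (z * C)) =
      (x * (c * A)) * (y * (c * B)) * (z * (c * C)) := by intros; ring
  rw [h, mul_pow, mul_pow, mul_pow (e _), mul_pow (e _), mul_pow (e _), he, he, he, hn _ _ (ne_of hij),
    hn _ _ (ne_of hjk), hn _ _ (ne_of hki)]
  ring

end Pool.Agent.U200.WH
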