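import Mathlib
import Pool.Agent.R503.SIC.Base
import Pool.Agent.U200.WHBase

set_option autoImplicit false

/-! # The fiducials in dimensions two and three whose overlap phases are roots of unity -/

namespace Pool.Agent.U200.WH

open Finset Complex Pool.Agent.R503.SIC
open scoped ComplexConjugate

theorem pair_cases3 {P : ZMod 3 → ZMod 3 → Prop} (h01 : P 0 1) (h02 : P 0 2) (h1 : ∀ b, P 1 b)
    (h2 : ∀ b, P 2 b) : ∀ a b : ZMod 3, (a, b) ≠ (0, 0) → P a b := by
  intro a b hab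
  have hall : ∀ c : ZMod 3, c = 0 ∨ c = 1 ∨ c = 2 := by decide
  have ha := hall a
  have hb := hall b
  rcases ha with rfl | rfl | rfl
  · rcases hb with rfl | rfl | rfl
    · exact absurd rfl hab
    · exact h01
    · exact h02
  · exact h1 b
  · exact h2 b

theorem example_three : ∃ ψ : ZMod 3 → ℂ, Fid ψ ∧
    ∀ a b, (a, b) ≠ (0, 0) → (-1 * chi ψ a b) ^ 3 = 1 := by
  have hr : (Real.sqrt 2) * (Real.sqrt 2) = 2 := Real.mul_self_sqrt (by norm_num)
  have hr0 : Real.sqrt 2 ≠ 0 := by positivity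
  set r : ℂ := ((1 / Real.sqrt 2 : ℝ) : ℂ) with hrdef
  have hrr : r * r = 1 / 2 := by
    rw [hrdef, ← Complex.ofReal_mul]
    have : (1 / Real.sqrt 2) * (1 / Real.sqrt 2) = 1 / 2 := by
      field_simp
      rw [pow_two, hr]
    rw [this]; norm_num
  have hcr : conj r = r := by rw [hrdef, Complex.conj_ofReal]
  let ψ : ZMod 3 → ℂ := fun j => if j = 0 then 0 else if j = 1 then r else -r
  have p0 : ψ 0 = 0 := rfl
  have p1 : ψ 1 = r := rfl
  have p2 : ψ 2 = -r := rfl
  have hsum : ∀ f : ZMod 3 → ℂ, ∑ b, f b = f 0 + f 1 + f 2 := fun f => Fin.sum_univ_three f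
  have he0 : e (0 : ZMod 3) = 1 := e_zero
  have hov : ∀ a b : ZMod 3, ov ψ a b = conj (ψ (1 + a)) * (e b * r) -
      conj (ψ (2 + a)) * (e (b * 2) * r) := by
    intro a b
    unfold ov
    rw [hsum, p0, p1, p2, mul_one]
    ring
  have hsum3 : ∀ b : ZMod 3, b ≠ 0 → 1 + e b + e (b * 2) = 0 := by
    intro b hb
    have h1 := sum_e b
    rw [if_neg hb, hsum] at h1
    have e1 : (0 : ZMod 3) * b = 0 := zero_mul _
    have e2 : (1 : ZMod 3) * b = b := one_mul _
    have e3 : (2 : ZMod 3) * b = b * 2 := mul_comm _ _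
    rw [e1, e2, e3, he0] at h1
    exact h1
  have o0 : ∀ b : ZMod 3, b ≠ 0 → ov ψ 0 b = -(1 / 2) := by
    intro b hb
    have e1 : (1 : ZMod 3) + 0 = 1 := by decide
    have e2 : (2 : ZMod 3) + 0 = 2 := by decide
    rw [hov, e1, e2, p1, p2, map_neg, hcr]
    linear_combination (e b + e (b * 2)) * hrr + (1 / 2) * hsum3 b hb
  have o1 : ∀ b : ZMod 3, ov ψ 1 b = -(1 / 2) * e b := by
    intro b
    have e1 : (1 : ZMod 3) + 1 = 2 := by decide
    have e2 : (2 : ZMod 3) + 1 = 0 := by decide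
    rw [hov, e1, e2, p2, p0, map_neg, hcr, map_zero]
    linear_combination (-e b) * hrr
  have o2 : ∀ b : ZMod 3, ov ψ 2 b = -(1 / 2) * e (b * 2) := by
    intro b
    have e1 : (1 : ZMod 3) + 2 = 0 := by decide
    have e2 : (2 : ZMod 3) + 2 = 1 := by decide
    rw [hov, e1, e2, p1, p0, hcr, map_zero]
    linear_combination (-e (b * 2)) * hrr
  have hs : ((Real.sqrt (((3 : ℕ) : ℝ) + 1) : ℝ) : ℂ) = 2 := by
    have : (((3 : ℕ) : ℝ) + 1) = 2 ^ 2 := by norm_num
    rw [this, Real.sqrt_sq (by norm_num)]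
    norm_num
  have hcube : ∀ b : ZMod 3, e b ^ 3 = 1 := by
    intro b
    have : e b ^ 3 = e (b + b + b) := by rw [e_add, e_add]; ring
    have hall : ∀ c : ZMod 3, c + c + c = 0 := by decide
    rw [this, hall b, he0]
  refine ⟨ψ, ⟨?_, ?_⟩, ?_⟩
  · have h1 : ∀ f : ZMod 3 → ℝ, ∑ b, f b = f 0 + f 1 + f 2 := fun f => Fin.sum_univ_three f
    rw [h1, p0, p1, p2, norm_neg, norm_zero]
    have : ‖r‖ ^ 2 = 1 / 2 := by
      rw [hrdef, Complex.norm_real, Real.norm_eq_abs, sq_abs, div_pow, one_pow, pow_two, hr]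
    rw [this]; norm_num
  · refine pair_cases3 ?_ ?_ ?_ ?_
    · rw [o0 1 (by decide), norm_neg]; norm_num
    · rw [o0 2 (by decide), norm_neg]; norm_num
    · intro b
      rw [o1, norm_mul, norm_e, norm_neg]; norm_num
    · intro b
      rw [o2, norm_mul, norm_e, norm_neg]; norm_num
  · refine pair_cases3 ?_ ?_ ?_ ?_
    · unfold chi; rw [o0 1 (by decide), hs]; norm_num
    · unfold chi; rw [o0 2 (by decide), hs]; norm_num
    · intro b
      unfold chi
      rw [o1, hs]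
      linear_combination hcube b
    · intro b
      unfold chi
      rw [o2, hs]
      linear_combination hcube (b * 2)

theorem example_two : ∃ ψ : ZMod 2 → ℂ, Fid ψ ∧
    ∀ a b, (a, b) ≠ (0, 0) → chi ψ a b ^ 4 = 1 := by
  have h3 : Real.sqrt 3 * Real.sqrt 3 = 3 := Real.mul_self_sqrt (by norm_num)
  have h30 : 0 < Real.sqrt 3 := by positivity
  have h33 : Real.sqrt 3 < 3 := by nlinarith
  set α : ℝ := Real.sqrt ((3 + Real.sqrt 3) / 6) with hα
  set β : ℝ := Real.sqrt ((3 - Real.sqrt 3) / 6) with hβ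
  have hαα : α * α = (3 + Real.sqrt 3) / 6 := Real.mul_self_sqrt (by positivity)
  have hββ : β * β = (3 - Real.sqrt 3) / 6 := Real.mul_self_sqrt (by linarith)
  have hα0 : 0 ≤ α := Real.sqrt_nonneg _
  have hβ0 : 0 ≤ β := Real.sqrt_nonneg _
  have h2 : Real.sqrt 2 * Real.sqrt 2 = 2 := Real.mul_self_sqrt (by norm_num)
  have h20 : 0 < Real.sqrt 2 := by positivity
  set t : ℝ := β / Real.sqrt 2 with ht
  have ht0 : 0 ≤ t := by positivity
  have htt : t * t = (3 - Real.sqrt 3) / 12 := by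
    rw [ht]
    have : β / Real.sqrt 2 * (β / Real.sqrt 2) = β * β / (Real.sqrt 2 * Real.sqrt 2) := by
      field_simp
    rw [this, hββ, h2]; ring
  -- `2 α t = 1 / √3`
  have hat : 2 * α * t = 1 / Real.sqrt 3 := by
    have h5 : (2 * α * t) ^ 2 = (1 / Real.sqrt 3) ^ 2 := by
      have : (2 * α * t) ^ 2 = 4 * (α * α) * (t * t) := by ring
      rw [this, hαα, htt, div_pow, one_pow, pow_two, h3]
      nlinarith
    have h6 : 0 ≤ 2 * α * t := by positivity
    have h7 : 0 ≤ 1 / Real.sqrt 3 := by positivity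
    exact (pow_left_inj₀ h6 h7 two_ne_zero).1 h5
  have hdiff : α * α - 2 * (t * t) = 1 / Real.sqrt 3 := by
    rw [hαα, htt]
    field_simp
    nlinarith
  let z : ℂ := (t : ℂ) + (t : ℂ) * Complex.I
  let ψ : ZMod 2 → ℂ := fun j => if j = 0 then (α : ℂ) else z
  have p0 : ψ 0 = (α : ℂ) := rfl
  have p1 : ψ 1 = z := rfl
  have hsum : ∀ f : ZMod 2 → ℂ, ∑ b, f b = f 0 + f 1 := fun f => Fin.sum_univ_two f
  have he0 : e (0 : ZMod 2) = 1 := e_zero
  have he1 : e (1 : ZMod 2) = -1 := by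
    have h1 : e (1 : ZMod 2) * e (1 : ZMod 2) = 1 := by
      rw [← e_add, ← he0]; rfl
    rcases mul_self_eq_one_iff.1 h1 with h2 | h2
    · exfalso
      rw [← he0] at h2
      exact absurd (e_inj h2) (by decide)
    · exact h2
  have hcz : conj z = (t : ℂ) - (t : ℂ) * Complex.I := by
    simp only [z, map_add, map_mul, Complex.conj_ofReal, Complex.conj_I]; ring
  have hI : Complex.I * Complex.I = -1 := Complex.I_mul_I
  have hczz : conj z * z = 2 * ((t * t : ℝ) : ℂ) := by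
    rw [hcz]; simp only [z]; push_cast
    linear_combination (-(t : ℂ) * t) * hI
  have c1 : (α : ℂ) * α - 2 * ((t * t : ℝ) : ℂ) = ((1 / Real.sqrt 3 : ℝ) : ℂ) := by
    rw [← hdiff]; push_cast; ring
  have c2 : 2 * (α : ℂ) * t = ((1 / Real.sqrt 3 : ℝ) : ℂ) := by
    rw [← hat]; push_cast; ring
  have o01 : ov ψ 0 1 = ((1 / Real.sqrt 3 : ℝ) : ℂ) := by
    unfold ov
    rw [hsum]
    have e1 : (0 : ZMod 2) + 0 = 0 := by decide
    have e2 : (1 : ZMod 2) + 0 = 1 := by decide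
    have e3 : (1 : ZMod 2) * 0 = 0 := by decide
    have e4 : (1 : ZMod 2) * 1 = 1 := by decide
    rw [e1, e2, e3, e4, he0, he1, p0, p1, Complex.conj_ofReal]
    linear_combination c1 - hczz
  have o10 : ov ψ 1 0 = ((1 / Real.sqrt 3 : ℝ) : ℂ) := by
    unfold ov
    rw [hsum]
    have e1 : (0 : ZMod 2) + 1 = 1 := by decide
    have e2 : (1 : ZMod 2) + 1 = 0 := by decide
    have e3 : (0 : ZMod 2) * 0 = 0 := by decide
    have e4 : (0 : ZMod 2) * 1 = 0 := by decide
    rw [e1, e2, e3, e4, he0, p0, p1, Complex.conj_ofReal, hcz]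
    simp only [z]
    linear_combination c2
  have o11 : ov ψ 1 1 = -Complex.I * ((1 / Real.sqrt 3 : ℝ) : ℂ) := by
    unfold ov
    rw [hsum]
    have e1 : (0 : ZMod 2) + 1 = 1 := by decide
    have e2 : (1 : ZMod 2) + 1 = 0 := by decide
    have e3 : (1 : ZMod 2) * 0 = 0 := by decide
    have e4 : (1 : ZMod 2) * 1 = 1 := by decide
    rw [e1, e2, e3, e4, he0, he1, p0, p1, Complex.conj_ofReal, hcz]
    simp only [z]
    linear_combination (-Complex.I) * c2
  have hs : ((Real.sqrt (((2 : ℕ) : ℝ) + 1) : ℝ) : ℂ) * ((1 / Real.sqrt 3 : ℝ) : ℂ) = 1 := by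
    have h6 : (((2 : ℕ) : ℝ) + 1) = 3 := by norm_num
    rw [h6, ← Complex.ofReal_mul]
    have : Real.sqrt 3 * (1 / Real.sqrt 3) = 1 := by field_simp
    rw [this]; norm_num
  have hcases : ∀ P : ZMod 2 → ZMod 2 → Prop, P 0 1 → P 1 0 → P 1 1 →
      ∀ a b : ZMod 2, (a, b) ≠ (0, 0) → P a b := by
    intro P h1 h2 h3 a b hab
    have hall : ∀ c : ZMod 2, c = 0 ∨ c = 1 := by decide
    have ha := hall a
    have hb := hall b
    rcases ha with rfl | rfl <;> rcases hb with rfl | rfl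
    · exact absurd rfl hab
    · exact h1
    · exact h2
    · exact h3
  have hn : ‖((1 / Real.sqrt 3 : ℝ) : ℂ)‖ ^ 2 = 1 / (((2 : ℕ) : ℝ) + 1) := by
    rw [Complex.norm_real, Real.norm_eq_abs, sq_abs, div_pow, one_pow, pow_two, h3]; norm_num
  refine ⟨ψ, ⟨?_, ?_⟩, ?_⟩
  · have h1 : ∀ f : ZMod 2 → ℝ, ∑ b, f b = f 0 + f 1 := fun f => Fin.sum_univ_two f
    rw [h1, p0, p1]
    have n1 : ‖(α : ℂ)‖ ^ 2 = α * α := by
      rw [Complex.norm_real, Real.norm_eq_abs, sq_abs]; ring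
    have n2 : ‖z‖ ^ 2 = 2 * (t * t) := by
      have h7 : ((‖z‖ ^ 2 : ℝ) : ℂ) = ((2 * (t * t) : ℝ) : ℂ) := by
        rw [← conj_mul_self', hczz]; push_cast; ring
      exact_mod_cast h7
    rw [n1, n2, hαα, htt]; ring
  · refine hcases _ ?_ ?_ ?_
    · rw [o01]; exact hn
    · rw [o10]; exact hn
    · rw [o11, norm_mul, norm_neg, Complex.norm_I, one_mul]; exact hn
  · refine hcases _ ?_ ?_ ?_
    · unfold chi; rw [o01, hs]; norm_num
    · unfold chi; rw [o10, hs]; norm_num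
    · have h8 : chi ψ 1 1 = -Complex.I := by
        unfold chi; rw [o11]
        linear_combination (-Complex.I) * hs
      rw [h8]
      have : (-Complex.I) ^ 4 = (Complex.I * Complex.I) * (Complex.I * Complex.I) := by ring
      rw [this, hI]; norm_num

end Pool.Agent.U200.WH
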