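import Mathlib
import Pool.Agent.TH560.RU.Cond
import Pool.Agent.U200.WHBase

set_option autoImplicit false

/-! # Dimension four: no Weyl–Heisenberg fiducial with phases of order dividing `4 · 5 ^ a` -/

namespace Pool.Agent.U200.WH

open Finset Complex Pool.Agent.R503.SIC
open scoped ComplexConjugate

/-- a ring homomorphism of the ring of algebraic integers to a field of characteristic `p` -/
theorem exists_reduction (p : ℕ) (hp : p.Prime) : ∃ (F : Type) (_ : Field F)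
    (_ : integralClosure ℤ ℂ →+* F), (p : F) = 0 := by
  have hne : Ideal.span {(p : integralClosure ℤ ℂ)} ≠ ⊤ := by
    intro h
    rw [Ideal.eq_top_iff_one, Ideal.mem_span_singleton] at h
    obtain ⟨u, hu⟩ := h
    have h1 : ((1 : ℤ) : ℂ) = ((p : ℤ) : ℂ) * (u : ℂ) := by
      have h2 := congrArg (fun z : integralClosure ℤ ℂ => (z : ℂ)) hu
      simpa using h2
    have h3 := TH560.RU.dvd_of_integral 1 p u u.2 (by exact_mod_cast hp.ne_zero) h1
    have h4 : p ∣ 1 := by exact_mod_cast h3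
    exact hp.one_lt.ne' (Nat.dvd_one.1 h4)
  obtain ⟨M, hM, hle⟩ := Ideal.exists_le_maximal _ hne
  refine ⟨integralClosure ℤ ℂ ⧸ M, Ideal.Quotient.field M, Ideal.Quotient.mk M, ?_⟩
  have h1 : (p : integralClosure ℤ ℂ) ∈ M := hle (Ideal.mem_span_singleton_self _)
  have h2 := (Ideal.Quotient.eq_zero_iff_mem).2 h1
  rw [← h2]
  simp

theorem root_reduction {p : ℕ} (hp : p.Prime) {F : Type} [Field F] (hF : (p : F) = 0) {m a : ℕ}
    {z : F} (hz : z ^ (p ^ a * m) = 1) : z ^ m = 1 := by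
  have : Fact p.Prime := ⟨hp⟩
  have hchar : CharP F p := by
    obtain ⟨q, hq⟩ := CharP.exists F
    have h1 := (CharP.cast_eq_zero_iff F q p).1 hF
    rcases (Nat.dvd_prime hp).1 h1 with h2 | h2
    · exfalso
      subst h2
      have h3 := (CharP.cast_eq_zero_iff F 1 1).2 (dvd_refl 1)
      rw [Nat.cast_one] at h3
      exact one_ne_zero h3
    · rw [← h2]; exact hq
  have : ExpChar F p := ExpChar.prime hp
  exact (ExpChar.pow_prime_pow_mul_eq_one_iff p a m z).1 hz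

theorem char_five (s x1 x2 x3 y0 y1 y2 y3 : ℂ) (a : ℕ) (hs : s ^ 2 = 5)
    (h1 : x1 ^ (5 ^ a * 4) = 1) (h3 : y1 ^ (5 ^ a * 4) = 1) (h13 : x1 * x3 = 1)
    (h2 : x2 ^ 2 = 1) (h0 : y0 ^ 2 = 1) (h22 : y2 ^ 2 = 1) (hy : y1 * y3 = -1)
    (hI : 2 * s * x2 = x1 ^ 2 + x3 ^ 2 + 2 * y0 * y2 - y1 ^ 2 - y3 ^ 2) : False := by
  obtain ⟨F, _, φ, hF⟩ := exists_reduction 5 (by norm_num)
  have hpos : 0 < 5 ^ a * 4 := by positivity
  have i1 : IsIntegral ℤ x1 := IsIntegral.of_pow hpos (by rw [h1]; exact isIntegral_one)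
  have hx3 : x3 ^ (5 ^ a * 4) = 1 := by
    have := congrArg (fun z => z ^ (5 ^ a * 4)) h13
    simp only [mul_pow, h1, one_mul, one_pow] at this
    exact this
  have i3 : IsIntegral ℤ x3 := IsIntegral.of_pow hpos (by rw [hx3]; exact isIntegral_one)
  have i2 : IsIntegral ℤ x2 := IsIntegral.of_pow two_pos (by rw [h2]; exact isIntegral_one)
  have j0 : IsIntegral ℤ y0 := IsIntegral.of_pow two_pos (by rw [h0]; exact isIntegral_one)
  have j2 : IsIntegral ℤ y2 := IsIntegral.of_pow two_pos (by rw [h22]; exact isIntegral_one)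
  have j1 : IsIntegral ℤ y1 := IsIntegral.of_pow hpos (by rw [h3]; exact isIntegral_one)
  have hy3 : y3 ^ (5 ^ a * 4) = 1 := by
    have := congrArg (fun z => z ^ (5 ^ a * 4)) hy
    simp only [mul_pow, h3, one_mul] at this
    rw [this, Even.neg_one_pow ⟨5 ^ a * 2, by ring⟩]
  have j3 : IsIntegral ℤ y3 := IsIntegral.of_pow hpos (by rw [hy3]; exact isIntegral_one)
  have is : IsIntegral ℤ s := IsIntegral.of_pow two_pos (by
    rw [hs]
    have := isIntegral_algebraMap (R := ℤ) (A := ℂ) (x := 5)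
    simpa using this)
  let S : integralClosure ℤ ℂ := ⟨s, is⟩
  let X1 : integralClosure ℤ ℂ := ⟨x1, i1⟩
  let X2 : integralClosure ℤ ℂ := ⟨x2, i2⟩
  let X3 : integralClosure ℤ ℂ := ⟨x3, i3⟩
  let Y0 : integralClosure ℤ ℂ := ⟨y0, j0⟩
  let Y1 : integralClosure ℤ ℂ := ⟨y1, j1⟩
  let Y2 : integralClosure ℤ ℂ := ⟨y2, j2⟩
  let Y3 : integralClosure ℤ ℂ := ⟨y3, j3⟩
  have e1 : X1 * X3 = 1 := Subtype.ext h13
  have e2 : X2 ^ 2 = 1 := Subtype.ext h2
  have e3 : Y0 ^ 2 = 1 := Subtype.ext h0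
  have e4 : Y2 ^ 2 = 1 := Subtype.ext h22
  have e5 : Y1 * Y3 = -1 := Subtype.ext hy
  have e6 : 2 * S * X2 = X1 ^ 2 + X3 ^ 2 + 2 * Y0 * Y2 - Y1 ^ 2 - Y3 ^ 2 := Subtype.ext hI
  have e7 : S ^ 2 = 5 := Subtype.ext hs
  have e8 : X1 ^ (5 ^ a * 4) = 1 := Subtype.ext h1
  have e9 : Y1 ^ (5 ^ a * 4) = 1 := Subtype.ext h3
  have hF' : (5 : F) = 0 := by exact_mod_cast hF
  have f1 := congrArg φ e1
  have f3 := congrArg φ e3
  have f4 := congrArg φ e4
  have f5 := congrArg φ e5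
  have f6 := congrArg φ e6
  have f7 := congrArg φ e7
  have f8 := congrArg φ e8
  have f9 := congrArg φ e9
  simp only [map_mul, map_pow, map_one, map_add, map_sub, map_neg, map_ofNat] at f1 f3 f4 f5 f6 f7 f8 f9
  rw [hF'] at f7
  have g7 : φ S = 0 := by
    exact pow_eq_zero_iff (two_ne_zero) |>.1 f7
  have g8 := root_reduction (by norm_num) hF f8
  have g9 := root_reduction (by norm_num) hF f9
  rw [g7] at f6
  -- squares
  have u1 : φ X1 ^ 2 = 1 ∨ φ X1 ^ 2 = -1 := by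
    have : (φ X1 ^ 2 - 1) * (φ X1 ^ 2 + 1) = 0 := by linear_combination g8
    rcases mul_eq_zero.1 this with h | h
    · left; linear_combination h
    · right; linear_combination h
  have v1 : φ Y1 ^ 2 = 1 ∨ φ Y1 ^ 2 = -1 := by
    have : (φ Y1 ^ 2 - 1) * (φ Y1 ^ 2 + 1) = 0 := by linear_combination g9
    rcases mul_eq_zero.1 this with h | h
    · left; linear_combination h
    · right; linear_combination h
  have t1 : φ Y0 * φ Y2 = 1 ∨ φ Y0 * φ Y2 = -1 := by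
    have : (φ Y0 * φ Y2 - 1) * (φ Y0 * φ Y2 + 1) = 0 := by
      linear_combination (φ Y2) ^ 2 * f3 + f4
    rcases mul_eq_zero.1 this with h | h
    · left; linear_combination h
    · right; linear_combination h
  have u3 : φ X3 ^ 2 = φ X1 ^ 2 := by
    linear_combination (φ X3 ^ 2 * (-g8)) + (φ X1 ^ 2) * (φ X1 * φ X3 + 1) * f1
  have v3 : φ Y3 ^ 2 = φ Y1 ^ 2 := by
    linear_combination (φ Y3 ^ 2 * (-g9)) + (φ Y1 ^ 2) * (φ Y1 * φ Y3 - 1) * f5
  have key : 2 * φ X1 ^ 2 + 2 * (φ Y0 * φ Y2) - 2 * φ Y1 ^ 2 = 0 := by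
    linear_combination -f6 + u3 * (-1) + v3
  have h10 : (1 : F) ≠ 0 := one_ne_zero
  rcases u1 with u | u <;> rcases v1 with v | v <;> rcases t1 with t | t <;>
    rw [u, v, t] at key <;> apply h10
  · linear_combination (-2) * key + hF'
  · linear_combination 2 * key + hF'
  · linear_combination key * (-1) * (-1) - hF'
  · linear_combination (-2) * key + hF'
  · linear_combination 2 * key + hF'
  · linear_combination (-1) * key - hF'
  · linear_combination (-2) * key + hF'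
  · linear_combination 2 * key + hF'

theorem inv_ov {d : ℕ} [NeZero d] (ψ : ZMod d → ℂ) (a c : ZMod d) :
    ∑ b, e (b * c) * ov ψ a b = d * (conj (ψ (-c + a)) * ψ (-c)) := by
  unfold ov
  have h1 : ∀ b : ZMod d, e (b * c) * ∑ j, conj (ψ (j + a)) * (e (b * j) * ψ j) =
      ∑ j, conj (ψ (j + a)) * ψ j * e (b * (j + c)) := by
    intro b
    rw [Finset.mul_sum]
    refine Finset.sum_congr rfl fun j _ => ?_
    have h2 : e (b * (j + c)) = e (b * c) * e (b * j) := by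
      rw [← e_add]; congr 1; ring
    rw [h2]; ring
  rw [Finset.sum_congr rfl fun b _ => h1 b, Finset.sum_comm]
  have h3 : ∀ j : ZMod d, ∑ b, conj (ψ (j + a)) * ψ j * e (b * (j + c)) =
      if j = -c then d * (conj (ψ (-c + a)) * ψ (-c)) else 0 := by
    intro j
    rw [← Finset.mul_sum, sum_e]
    by_cases h : j = -c
    · rw [if_pos h, if_pos (by rw [h]; ring), h]; ring
    · rw [if_neg h, if_neg (fun h4 => h (by linear_combination h4)), mul_zero]
  rw [Finset.sum_congr rfl fun j _ => h3 j, Finset.sum_ite_eq' _ _ _, if_pos (Finset.mem_univ _)]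

theorem no_four {ψ : ZMod 4 → ℂ} (h : Fid ψ) {n a : ℕ} (hn : n ∣ 4 * 5 ^ a)
    (hchi : ∀ a b, (a, b) ≠ (0, 0) → chi ψ a b ^ n = 1) : False := by
  have hpow : ∀ a' b, (a', b) ≠ ((0 : ZMod 4), (0 : ZMod 4)) → chi ψ a' b ^ (5 ^ a * 4) = 1 := by
    intro a' b hab
    obtain ⟨c, hc⟩ := hn
    rw [mul_comm, hc, pow_mul, hchi a' b hab, one_pow]
  have hsum : ∀ f : ZMod 4 → ℂ, ∑ b, f b = f 0 + f 1 + f 2 + f 3 := fun f => Fin.sum_univ_four f
  have he0 : e (0 : ZMod 4) = 1 := e_zero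
  have he2 : e (2 : ZMod 4) = -1 := by
    have h1 : e (2 : ZMod 4) * e (2 : ZMod 4) = 1 := by
      rw [← e_add, ← he0]; rfl
    rcases mul_self_eq_one_iff.1 h1 with h2 | h2
    · exfalso
      rw [← he0] at h2
      exact absurd (e_inj h2) (by decide)
    · exact h2
  set s : ℂ := ((Real.sqrt (((4 : ℕ) : ℝ) + 1) : ℝ) : ℂ) with hs
  have hss : s ^ 2 = 5 := by
    rw [pow_two, hs, sq_s]; norm_num
  -- the four sums
  have k1 := inv_ov ψ 0 0
  have k2 := inv_ov ψ 0 2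
  have k3 := inv_ov ψ 2 0
  have k4 := inv_ov ψ 2 2
  simp only [hsum] at k1 k2 k3 k4
  have m1 : ((1 : ZMod 4) * 2) = 2 := by decide
  have m2 : ((2 : ZMod 4) * 2) = 0 := by decide
  have m3 : ((3 : ZMod 4) * 2) = 2 := by decide
  have m4 : (-(2 : ZMod 4)) = 2 := by decide
  have m5 : ((2 : ZMod 4) + 2) = 0 := by decide
  simp only [mul_zero, zero_mul, neg_zero, zero_add, add_zero, m1, m2, m3, m4, m5, he0, he2,
    one_mul] at k1 k2 k3 k4
  have hov0 : ov ψ 0 0 = 1 := ov_zero h.1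
  have keyov : (ov ψ 0 0 + ov ψ 0 1 + ov ψ 0 2 + ov ψ 0 3) *
      (ov ψ 0 0 + -1 * ov ψ 0 1 + ov ψ 0 2 + -1 * ov ψ 0 3) =
      (ov ψ 2 0 + ov ψ 2 1 + ov ψ 2 2 + ov ψ 2 3) *
      (ov ψ 2 0 + -1 * ov ψ 2 1 + ov ψ 2 2 + -1 * ov ψ 2 3) := by
    rw [k1, k2, k3, k4]; ring
  have key : (s + chi ψ 0 1 + chi ψ 0 2 + chi ψ 0 3) *
      (s - chi ψ 0 1 + chi ψ 0 2 - chi ψ 0 3) =
      (chi ψ 2 0 + chi ψ 2 1 + chi ψ 2 2 + chi ψ 2 3) *
      (chi ψ 2 0 - chi ψ 2 1 + chi ψ 2 2 - chi ψ 2 3) := by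
    rw [hov0] at keyov
    unfold chi
    rw [← hs]
    linear_combination s ^ 2 * keyov
  have r13 : chi ψ 0 1 * chi ψ 0 3 = 1 := by
    have := chi_mul_neg h (a := 0) (b := 1) (by decide)
    have e1 : (-(0 : ZMod 4)) = 0 := by decide
    have e2 : (-(1 : ZMod 4)) = 3 := by decide
    have e3 : ((1 : ZMod 4) * 0) = 0 := by decide
    rwa [e1, e2, e3, he0, mul_one] at this
  have r2 : chi ψ 0 2 ^ 2 = 1 := by
    have := chi_mul_neg h (a := 0) (b := 2) (by decide)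
    have e1 : (-(0 : ZMod 4)) = 0 := by decide
    have e3 : ((2 : ZMod 4) * 0) = 0 := by decide
    rw [e1, m4, e3, he0, mul_one] at this
    rw [pow_two]; exact this
  have q0 : chi ψ 2 0 ^ 2 = 1 := by
    have := chi_mul_neg h (a := 2) (b := 0) (by decide)
    have e1 : (-(0 : ZMod 4)) = 0 := by decide
    have e3 : ((0 : ZMod 4) * 2) = 0 := by decide
    rw [e1, m4, e3, he0, mul_one] at this
    rw [pow_two]; exact this
  have q2 : chi ψ 2 2 ^ 2 = 1 := by
    have := chi_mul_neg h (a := 2) (b := 2) (by decide)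
    rw [m4, m2, he0, mul_one] at this
    rw [pow_two]; exact this
  have q13 : chi ψ 2 1 * chi ψ 2 3 = -1 := by
    have := chi_mul_neg h (a := 2) (b := 1) (by decide)
    have e2 : (-(1 : ZMod 4)) = 3 := by decide
    rw [m4, e2, m1, he2] at this
    linear_combination -this
  refine char_five s (chi ψ 0 1) (chi ψ 0 2) (chi ψ 0 3) (chi ψ 2 0) (chi ψ 2 1) (chi ψ 2 2)
    (chi ψ 2 3) a hss (hpow 0 1 (by decide)) (hpow 2 1 (by decide)) r13 r2 q0 q2 q13 ?_
  linear_combination key - hss - r2 + q0 + q2 + 2 * r13 - 2 * q13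

end Pool.Agent.U200.WH
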