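import Mathlib
import Pool.Agent.R503.SIC.Base

set_option autoImplicit false

/-! # Moments of the discrete Wigner function in odd dimensions -/

namespace Pool.Agent.U200.Wig

open Finset Complex Pool.Agent.R503.SIC
open scoped ComplexConjugate

variable {d : ℕ} [NeZero d]

/-- Parseval -/
theorem parseval (f : ZMod d → ℂ) :
    ∑ k, ‖∑ u, e (k * u) * f u‖ ^ 2 = d * ∑ u, ‖f u‖ ^ 2 := by
  have h : ((∑ k, ‖∑ u, e (k * u) * f u‖ ^ 2 : ℝ) : ℂ) = ((d * ∑ u, ‖f u‖ ^ 2 : ℝ) : ℂ) := by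
    have h1 : ∀ k : ZMod d, ((‖∑ u, e (k * u) * f u‖ ^ 2 : ℝ) : ℂ) =
        ∑ v, ∑ u, conj (f v) * f u * e (k * (u - v)) := by
      intro k
      rw [← conj_mul_self', map_sum, Finset.sum_mul_sum]
      refine Finset.sum_congr rfl fun v _ => Finset.sum_congr rfl fun u _ => ?_
      rw [map_mul, conj_e]
      have h2 : e (k * (u - v)) = e (-(k * v)) * e (k * u) := by
        rw [← e_add]; congr 1; ring
      rw [h2]; ring
    rw [Complex.ofReal_sum, Finset.sum_congr rfl fun k _ => h1 k, Finset.sum_comm]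
    push_cast
    rw [Finset.mul_sum]
    refine Finset.sum_congr rfl fun v _ => ?_
    rw [Finset.sum_comm]
    have h3 : ∀ u : ZMod d, ∑ k, conj (f v) * f u * e (k * (u - v)) =
        if u = v then (d : ℂ) * (conj (f v) * f v) else 0 := by
      intro u
      rw [← Finset.mul_sum, sum_e]
      by_cases h : u = v
      · rw [if_pos h, if_pos (by rw [h, sub_self]), h]; ring
      · rw [if_neg h, if_neg (fun h4 => h (sub_eq_zero.1 h4)), mul_zero]
    rw [Finset.sum_congr rfl fun u _ => h3 u, Finset.sum_ite_eq' _ _ _,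
      if_pos (Finset.mem_univ _), conj_mul_self']
    push_cast
    ring
  exact_mod_cast h

/-- the fourth moment of the Fourier transform -/
theorem fourth (f : ZMod d → ℂ) :
    ∑ k, ‖∑ u, e (k * u) * f u‖ ^ 4 = d * ∑ w, ‖∑ j, f j * f (w - j)‖ ^ 2 := by
  rw [← parseval]
  refine Finset.sum_congr rfl fun k _ => ?_
  have h1 : (∑ u, e (k * u) * f u) * (∑ u, e (k * u) * f u) =
      ∑ w, e (k * w) * ∑ j, f j * f (w - j) := by
    rw [Finset.sum_mul_sum]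
    have h2 : ∀ w : ZMod d, e (k * w) * ∑ j, f j * f (w - j) =
        ∑ j, (e (k * j) * f j) * (e (k * (w - j)) * f (w - j)) := by
      intro w
      rw [Finset.mul_sum]
      refine Finset.sum_congr rfl fun j _ => ?_
      have h3 : e (k * w) = e (k * j) * e (k * (w - j)) := by
        rw [← e_add]; congr 1; ring
      rw [h3]; ring
    have h5 : ∑ w, ∑ j, (e (k * j) * f j) * (e (k * (w - j)) * f (w - j)) =
        ∑ j, ∑ u, (e (k * j) * f j) * (e (k * u) * f u) := by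
      rw [Finset.sum_comm]
      refine Finset.sum_congr rfl fun j _ => ?_
      exact (Equiv.subRight j).sum_comp (fun u => (e (k * j) * f j) * (e (k * u) * f u))
    rw [Finset.sum_congr rfl fun w _ => h2 w, h5]
  rw [← h1, norm_mul]
  ring

/-- multiplication by two -/
noncomputable def dbl (hd : Odd d) : ZMod d ≃ ZMod d :=
  (ZMod.unitOfCoprime 2 (Nat.coprime_two_left.2 hd)).mulLeft

omit [NeZero d] in
theorem dbl_apply (hd : Odd d) (x : ZMod d) : dbl hd x = 2 * x := by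
  unfold dbl
  simp [ZMod.coe_unitOfCoprime]

omit [NeZero d] in
theorem two_ne (hd : Odd d) {x : ZMod d} (h : 2 * x = 0) : x = 0 := by
  have h1 : dbl hd x = dbl hd 0 := by rw [dbl_apply, dbl_apply, h, mul_zero]
  exact (dbl hd).injective h1

/-- `(u, v) ↦ (u + v, u - v)` -/
noncomputable def sumdiff (hd : Odd d) : ZMod d × ZMod d ≃ ZMod d × ZMod d :=
  Equiv.ofBijective (fun p => (p.1 + p.2, p.1 - p.2)) (by
    rw [← Finite.injective_iff_bijective]
    rintro ⟨a, b⟩ ⟨a', b'⟩ h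
    rw [Prod.mk.injEq] at h
    have h1 : a = a' := by
      have : 2 * (a - a') = 0 := by linear_combination h.1 + h.2
      exact sub_eq_zero.1 (two_ne hd this)
    have h2 : b = b' := by linear_combination h.1 - h1
    rw [h1, h2])

theorem sum_sumdiff {M : Type*} [AddCommMonoid M] (hd : Odd d) (F : ZMod d → ZMod d → M) :
    ∑ u, ∑ v, F (u + v) (u - v) = ∑ a, ∑ b, F a b := by
  rw [← Fintype.sum_prod_type', ← Fintype.sum_prod_type']
  exact Fintype.sum_equiv (sumdiff hd) _ _ fun p => rfl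

/-- `d` times the Wigner function -/
noncomputable def G (ψ : ZMod d → ℂ) (x k : ZMod d) : ℂ :=
  ∑ j, e (2 * k * j) * (conj (ψ (x + j)) * ψ (x - j))

theorem conj_G (ψ : ZMod d → ℂ) (x k : ZMod d) : conj (G ψ x k) = G ψ x k := by
  unfold G
  rw [map_sum]
  refine Fintype.sum_equiv (Equiv.neg _) _ _ fun j => ?_
  simp only [Equiv.neg_apply, map_mul, conj_e, Complex.conj_conj]
  have h1 : 2 * k * -j = -(2 * k * j) := by ring
  have h2 : x + -j = x - j := by ring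
  have h3 : x - -j = x + j := by ring
  rw [h1, h2, h3]
  ring

theorem G_re (ψ : ZMod d → ℂ) (x k : ZMod d) : (((G ψ x k).re : ℝ) : ℂ) = G ψ x k :=
  Complex.conj_eq_iff_re.1 (conj_G ψ x k)

theorem norm_G (ψ : ZMod d → ℂ) (x k : ZMod d) : ‖G ψ x k‖ = |(G ψ x k).re| := by
  conv_lhs => rw [← G_re]
  rw [Complex.norm_real, Real.norm_eq_abs]

theorem reindex_k (hd : Odd d) (f : ZMod d → ℂ) (n : ℕ) :
    ∑ k, ‖∑ u, e (2 * k * u) * f u‖ ^ n = ∑ k, ‖∑ u, e (k * u) * f u‖ ^ n := by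
  refine Fintype.sum_equiv (dbl hd) _ _ fun k => ?_
  rw [dbl_apply]

theorem first_moment (hd : Odd d) {ψ : ZMod d → ℂ} (h : ∑ j, ‖ψ j‖ ^ 2 = 1) :
    ∑ x, ∑ k, (G ψ x k).re = d := by
  have h1 : ((∑ x, ∑ k, (G ψ x k).re : ℝ) : ℂ) = ((d : ℝ) : ℂ) := by
    push_cast
    have h2 : ∀ x, ∑ k, (((G ψ x k).re : ℝ) : ℂ) = d * ((‖ψ x‖ ^ 2 : ℝ) : ℂ) := by
      intro x
      rw [Finset.sum_congr rfl fun k _ => G_re ψ x k]
      unfold G
      rw [Finset.sum_comm]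
      have h3 : ∀ j : ZMod d, ∑ k, e (2 * k * j) * (conj (ψ (x + j)) * ψ (x - j)) =
          if j = 0 then (d : ℂ) * (conj (ψ x) * ψ x) else 0 := by
        intro j
        rw [← Finset.sum_mul]
        have h4 : ∑ k : ZMod d, e (2 * k * j) = ∑ k : ZMod d, e (k * (2 * j)) :=
          Finset.sum_congr rfl fun k _ => by congr 1; ring
        rw [h4, sum_e]
        by_cases hj : j = 0
        · rw [if_pos hj, if_pos (by rw [hj, mul_zero]), hj, add_zero, sub_zero]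
        · rw [if_neg hj, if_neg (fun h5 => hj (two_ne hd h5)), zero_mul]
      rw [Finset.sum_congr rfl fun j _ => h3 j, Finset.sum_ite_eq' _ _ _,
        if_pos (Finset.mem_univ _), conj_mul_self']
    rw [Finset.sum_congr rfl fun x _ => h2 x, ← Finset.mul_sum, ← Complex.ofReal_sum, h]
    simp
  exact_mod_cast h1

theorem second_moment (hd : Odd d) {ψ : ZMod d → ℂ} (h : ∑ j, ‖ψ j‖ ^ 2 = 1) :
    ∑ x, ∑ k, ‖G ψ x k‖ ^ 2 = d := by
  have h1 : ∀ x, ∑ k, ‖G ψ x k‖ ^ 2 = d * ∑ j, ‖ψ (x + j)‖ ^ 2 * ‖ψ (x - j)‖ ^ 2 := by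
    intro x
    unfold G
    rw [reindex_k hd (fun j => conj (ψ (x + j)) * ψ (x - j)), parseval]
    congr 1
    refine Finset.sum_congr rfl fun j _ => ?_
    rw [norm_mul, norm_conj', mul_pow]
  rw [Finset.sum_congr rfl fun x _ => h1 x, ← Finset.mul_sum,
    sum_sumdiff hd (fun a b => ‖ψ a‖ ^ 2 * ‖ψ b‖ ^ 2)]
  rw [← Finset.sum_mul_sum, h]
  ring

theorem norm_ov_dbl (ψ : ZMod d → ℂ) (u b : ZMod d) :
    ‖∑ j, e (b * j) * (conj (ψ (j + u)) * ψ (j - u))‖ = ‖ov ψ (2 * u) b‖ := by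
  have h1 : ov ψ (2 * u) b = e (-(b * u)) *
      ∑ j, e (b * j) * (conj (ψ (j + u)) * ψ (j - u)) := by
    unfold ov
    rw [Finset.mul_sum]
    refine Fintype.sum_equiv (Equiv.addRight u) _ _ fun j => ?_
    simp only [Equiv.coe_addRight]
    have h2 : j + u + u = j + 2 * u := by ring
    have h3 : j + u - u = j := by ring
    have h4 : e (b * j) = e (-(b * u)) * e (b * (j + u)) := by
      rw [← e_add]; congr 1; ring
    rw [h2, h3, h4]; ring
  rw [h1, norm_mul, norm_e, one_mul]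

/-- the fourth moment of the Wigner function -/
theorem fourth_moment (hd : Odd d) (ψ : ZMod d → ℂ) :
    ∑ x, ∑ k, ‖G ψ x k‖ ^ 4 = ∑ a, ∑ b, ‖ov ψ a b‖ ^ 4 := by
  have h1 : ∀ x, ∑ k, ‖G ψ x k‖ ^ 4 =
      d * ∑ u, ‖∑ v, (conj (ψ (x + v + u)) * ψ (x + v - u)) *
        (conj (ψ (x - v + u)) * ψ (x - v - u))‖ ^ 2 := by
    intro x
    unfold G
    rw [reindex_k hd (fun j => conj (ψ (x + j)) * ψ (x - j)), fourth]
    congr 1
    symm
    refine Fintype.sum_equiv (dbl hd) _ _ fun u => ?_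
    rw [dbl_apply]
    congr 2
    refine Fintype.sum_equiv (Equiv.addLeft u) _ _ fun v => ?_
    simp only [Equiv.coe_addLeft]
    have e1 : x + (2 * u - (u + v)) = x - v + u := by ring
    have e2 : x - (2 * u - (u + v)) = x + v - u := by ring
    have e3 : x + (u + v) = x + v + u := by ring
    have e4 : x - (u + v) = x - v - u := by ring
    rw [e1, e2, e3, e4]; ring
  rw [Finset.sum_congr rfl fun x _ => h1 x, ← Finset.mul_sum, Finset.sum_comm, Finset.mul_sum]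
  symm
  rw [← Equiv.sum_comp (dbl hd)]
  refine Finset.sum_congr rfl fun u _ => ?_
  rw [dbl_apply]
  have h2 := fourth (fun j => conj (ψ (j + u)) * ψ (j - u))
  simp only [norm_ov_dbl] at h2
  rw [h2]
  congr 1
  symm
  refine Fintype.sum_equiv (dbl hd) _ _ fun x => ?_
  rw [dbl_apply]
  congr 2
  refine Fintype.sum_equiv (Equiv.addLeft x) _ _ fun v => ?_
  simp only [Equiv.coe_addLeft]
  have e1 : 2 * x - (x + v) + u = x - v + u := by ring
  have e2 : 2 * x - (x + v) - u = x - v - u := by ring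
  rw [e1, e2]

/-- the sum of the squared overlaps -/
theorem sum_ov_sq {ψ : ZMod d → ℂ} (h : ∑ j, ‖ψ j‖ ^ 2 = 1) :
    ∑ a, ∑ b, ‖ov ψ a b‖ ^ 2 = d := by
  have h1 : ∀ a, ∑ b, ‖ov ψ a b‖ ^ 2 = d * ∑ j, ‖ψ (j + a)‖ ^ 2 * ‖ψ j‖ ^ 2 := by
    intro a
    have h2 : ∀ b, ov ψ a b = ∑ j, e (b * j) * (conj (ψ (j + a)) * ψ j) := by
      intro b
      unfold ov
      exact Finset.sum_congr rfl fun j _ => by ring
    simp only [h2]
    rw [parseval]
    congr 1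
    refine Finset.sum_congr rfl fun j _ => ?_
    rw [norm_mul, norm_conj', mul_pow]
  rw [Finset.sum_congr rfl fun a _ => h1 a, ← Finset.mul_sum, Finset.sum_comm]
  have h3 : ∀ j : ZMod d, ∑ a, ‖ψ (j + a)‖ ^ 2 * ‖ψ j‖ ^ 2 = ‖ψ j‖ ^ 2 := by
    intro j
    rw [← Finset.sum_mul]
    have h4 : ∑ a : ZMod d, ‖ψ (j + a)‖ ^ 2 = ∑ a : ZMod d, ‖ψ a‖ ^ 2 :=
      Fintype.sum_equiv (Equiv.addLeft j) _ _ fun a => rfl
    rw [h4, h, one_mul]
  rw [Finset.sum_congr rfl fun j _ => h3 j, h, mul_one]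

/-- the sum of the fourth powers of the overlaps is minimal exactly for the fiducials -/
theorem sum_ov_four {ψ : ZMod d → ℂ} (h : ∑ j, ‖ψ j‖ ^ 2 = 1) :
    ∑ p : ZMod d × ZMod d, ‖ov ψ p.1 p.2‖ ^ 4 = 2 * d / ((d : ℝ) + 1) +
      ∑ p ∈ ({(0, 0)} : Finset (ZMod d × ZMod d))ᶜ,
        (‖ov ψ p.1 p.2‖ ^ 2 - 1 / ((d : ℝ) + 1)) ^ 2 := by
  have h0 : ov ψ 0 0 = 1 := ov_zero h
  have hd : (0 : ℝ) < d := by exact_mod_cast Nat.pos_of_ne_zero (NeZero.ne d)
  have hs : ∀ f : ZMod d × ZMod d → ℝ, ∑ p, f p = f (0, 0) +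
      ∑ p ∈ ({(0, 0)} : Finset (ZMod d × ZMod d))ᶜ, f p := by
    intro f
    rw [← Finset.sum_add_sum_compl ({(0, 0)} : Finset (ZMod d × ZMod d)), Finset.sum_singleton]
  have h2 : ∑ p ∈ ({(0, 0)} : Finset (ZMod d × ZMod d))ᶜ, ‖ov ψ p.1 p.2‖ ^ 2 = d - 1 := by
    have h3 := hs fun p => ‖ov ψ p.1 p.2‖ ^ 2
    rw [Fintype.sum_prod_type, sum_ov_sq h] at h3
    simp only [h0, norm_one, one_pow] at h3
    linarith
  have hc : ((({(0, 0)} : Finset (ZMod d × ZMod d))ᶜ.card : ℕ) : ℝ) = d ^ 2 - 1 := by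
    rw [Finset.card_compl, Finset.card_singleton, Fintype.card_prod, ZMod.card,
      Nat.cast_sub (Nat.mul_pos (Nat.pos_of_ne_zero (NeZero.ne d))
        (Nat.pos_of_ne_zero (NeZero.ne d)))]
    push_cast; ring
  have h4 : ∑ p ∈ ({(0, 0)} : Finset (ZMod d × ZMod d))ᶜ,
        (‖ov ψ p.1 p.2‖ ^ 2 - 1 / ((d : ℝ) + 1)) ^ 2 =
      ∑ p ∈ ({(0, 0)} : Finset (ZMod d × ZMod d))ᶜ, ‖ov ψ p.1 p.2‖ ^ 4 -
        2 / ((d : ℝ) + 1) * (d - 1) + (d ^ 2 - 1) * (1 / ((d : ℝ) + 1)) ^ 2 := by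
    rw [← h2, ← hc, Finset.mul_sum, ← Finset.sum_sub_distrib, ← nsmul_eq_mul, ← Finset.sum_const,
      ← Finset.sum_add_distrib]
    refine Finset.sum_congr rfl fun p _ => ?_
    ring
  rw [h4, hs fun p => ‖ov ψ p.1 p.2‖ ^ 4]
  simp only [h0, norm_one, one_pow]
  field_simp
  ring

theorem minimal {ψ : ZMod d → ℂ} (h : ∑ j, ‖ψ j‖ ^ 2 = 1) :
    2 * d / ((d : ℝ) + 1) ≤ ∑ a, ∑ b, ‖ov ψ a b‖ ^ 4 ∧
    (∑ a, ∑ b, ‖ov ψ a b‖ ^ 4 = 2 * d / ((d : ℝ) + 1) ↔ Fid ψ) := by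
  have h1 := sum_ov_four h
  rw [Fintype.sum_prod_type] at h1
  have h2 : 0 ≤ ∑ p ∈ ({(0, 0)} : Finset (ZMod d × ZMod d))ᶜ,
        (‖ov ψ p.1 p.2‖ ^ 2 - 1 / ((d : ℝ) + 1)) ^ 2 :=
    Finset.sum_nonneg fun p _ => sq_nonneg _
  refine ⟨by linarith, ?_⟩
  constructor
  · intro h3
    refine ⟨h, fun a b hab => ?_⟩
    have h4 : ∑ p ∈ ({(0, 0)} : Finset (ZMod d × ZMod d))ᶜ,
        (‖ov ψ p.1 p.2‖ ^ 2 - 1 / ((d : ℝ) + 1)) ^ 2 = 0 := by linarith
    rw [Finset.sum_eq_zero_iff_of_nonneg fun p _ => sq_nonneg _] at h4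
    have h5 := h4 (a, b) (by rw [Finset.mem_compl, Finset.mem_singleton]; exact hab)
    have h6 := pow_eq_zero_iff (two_ne_zero) |>.1 h5
    linarith
  · intro h3
    have h4 : ∑ p ∈ ({(0, 0)} : Finset (ZMod d × ZMod d))ᶜ,
        (‖ov ψ p.1 p.2‖ ^ 2 - 1 / ((d : ℝ) + 1)) ^ 2 = 0 := by
      refine Finset.sum_eq_zero fun p hp => ?_
      rw [Finset.mem_compl, Finset.mem_singleton] at hp
      rw [h3.2 p.1 p.2 hp, sub_self]
      norm_num
    linarith

end Pool.Agent.U200.Wig
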