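import Mathlib

set_option autoImplicit false

/-! # Sign counts from the moments of order one, two and four -/

namespace Pool.Agent.U200.WigReal

open Finset

variable {ι : Type*} [Fintype ι]

/-- the number of nonzero values -/
theorem card_ne (t : ι → ℝ) {S : ℝ} (h2 : ∑ i, t i ^ 2 = S) (h4 : ∑ i, t i ^ 4 = 2 * S) :
    S / 2 ≤ ({i | t i ≠ 0}.ncard : ℝ) := by
  classical
  have h : ({i | t i ≠ 0}.ncard : ℝ) = ∑ i, if t i ≠ 0 then (1 : ℝ) else 0 := by
    rw [Set.ncard_eq_toFinset_card', Finset.sum_boole]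
    congr 2
    ext i; simp
  rw [h]
  have h1 : S / 2 = ∑ i, (t i ^ 2 - t i ^ 4 / 4) := by
    rw [Finset.sum_sub_distrib, h2, ← Finset.sum_div, h4]; ring
  rw [h1]
  refine Finset.sum_le_sum fun i _ => ?_
  split_ifs with h0
  · nlinarith [sq_nonneg (1 - t i ^ 2 / 2)]
  · push Not at h0
    rw [h0]; norm_num

/-- the number of negative values -/
theorem card_neg (t : ι → ℝ) {S m : ℝ} (h1 : ∑ i, t i = m) (h2 : ∑ i, t i ^ 2 = S)
    (h4 : ∑ i, t i ^ 4 = 2 * S) :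
    (2 * Real.sqrt 3 - 3) / 2 * (S - 8 / (3 * Real.sqrt 3) * m) ≤ ({i | t i < 0}.ncard : ℝ) := by
  classical
  have hc : Real.sqrt 3 * Real.sqrt 3 = 3 := Real.mul_self_sqrt (by norm_num)
  set c := Real.sqrt 3 with hcdef
  have hc0 : 0 < c := by rw [hcdef]; positivity
  have hc1 : 1 < c := by nlinarith
  have h : ({i | t i < 0}.ncard : ℝ) = ∑ i, if t i < 0 then (1 : ℝ) else 0 := by
    rw [Set.ncard_eq_toFinset_card', Finset.sum_boole]
    congr 2
    ext i; simp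
  rw [h]
  have hsum : (2 * c - 3) / 2 * (S - 8 / (3 * c) * m) =
      ∑ i, (2 * c - 3) / 4 * (4 * t i ^ 2 - t i ^ 4 - 16 / (3 * c) * t i) := by
    rw [← Finset.mul_sum, Finset.sum_sub_distrib, Finset.sum_sub_distrib, ← Finset.mul_sum,
      ← Finset.mul_sum, h1, h2, h4]
    ring
  rw [hsum]
  refine Finset.sum_le_sum fun i _ => ?_
  set x := t i
  have hk : 16 / (3 * c) = 16 * c / 9 := by
    field_simp
    nlinarith
  rw [hk]
  have h23 : 0 < 2 * c - 3 := by nlinarith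
  split_ifs with h0
  · -- `(x + a)^2 ((x - a)^2 + 4 (c - 1) / 3) ≥ 0` with `a = 1 + c / 3`
    have h5 : 0 ≤ (x + (1 + c / 3)) ^ 2 * ((x - (1 + c / 3)) ^ 2 + 4 * (c - 1) / 3) := by
      have : 0 ≤ 4 * (c - 1) / 3 := by linarith
      positivity
    have h6 : (x + (1 + c / 3)) ^ 2 * ((x - (1 + c / 3)) ^ 2 + 4 * (c - 1) / 3) =
        x ^ 4 - 4 * x ^ 2 + 16 * c / 9 * x + (4 + 8 * c / 3) := by
      have e2 : c ^ 2 = 3 := by rw [pow_two, hc]
      have e3 : c ^ 3 = 3 * c := by rw [pow_succ, e2]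
      have e4 : c ^ 4 = 9 := by
        have : c ^ 4 = c ^ 2 * c ^ 2 := by ring
        rw [this, e2]; norm_num
      ring_nf
      rw [e2, e3, e4]
      ring
    rw [h6] at h5
    have h7 : (2 * c - 3) / 4 * (4 + 8 * c / 3) = 1 := by
      have : (2 * c - 3) / 4 * (4 + 8 * c / 3) = (16 * (c * c) / 3 - 12) / 4 := by ring
      rw [this, hc]; norm_num
    have h8 : (2 * c - 3) / 4 * (4 * x ^ 2 - x ^ 4 - 16 * c / 9 * x) ≤
        (2 * c - 3) / 4 * (4 + 8 * c / 3) := by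
      refine mul_le_mul_of_nonneg_left ?_ (by linarith)
      linarith
    linarith
  · push Not at h0
    -- `x (x - b)^2 (x + 2 b) ≥ 0` with `b = 2 c / 3`
    have h5 : 0 ≤ x * (x - 2 * c / 3) ^ 2 * (x + 4 * c / 3) := by positivity
    have h6 : x * (x - 2 * c / 3) ^ 2 * (x + 4 * c / 3) = x ^ 4 - 4 * x ^ 2 + 16 * c / 9 * x := by
      have e2 : c ^ 2 = 3 := by rw [pow_two, hc]
      have e3 : c ^ 3 = 3 * c := by rw [pow_succ, e2]
      ring_nf
      rw [e2, e3]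
      ring
    rw [h6] at h5
    have : (2 * c - 3) / 4 * (4 * x ^ 2 - x ^ 4 - 16 * c / 9 * x) ≤ (2 * c - 3) / 4 * 0 :=
      mul_le_mul_of_nonneg_left (by linarith) (by linarith)
    linarith

/-- the sum of the absolute values -/
theorem sum_abs (t : ι → ℝ) {S : ℝ} (h2 : ∑ i, t i ^ 2 = S) (h4 : ∑ i, t i ^ 4 = 2 * S) :
    S / Real.sqrt 2 ≤ ∑ i, |t i| := by
  have hc : Real.sqrt 2 * Real.sqrt 2 = 2 := Real.mul_self_sqrt (by norm_num)
  set c := Real.sqrt 2 with hcdef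
  have hc0 : 0 < c := by rw [hcdef]; positivity
  have hsum : S / c = ∑ i, (3 / 4 * c * t i ^ 2 - c / 8 * t i ^ 4) := by
    rw [Finset.sum_sub_distrib, ← Finset.mul_sum, ← Finset.mul_sum, h2, h4]
    have e2 : c ^ 2 = 2 := by rw [pow_two, hc]
    field_simp
    rw [e2]; ring
  rw [hsum]
  refine Finset.sum_le_sum fun i _ => ?_
  set x := |t i| with hx
  have hx0 : 0 ≤ x := abs_nonneg _
  have e2 : t i ^ 2 = x ^ 2 := (sq_abs _).symm
  have e4 : t i ^ 4 = x ^ 4 := by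
    have : t i ^ 4 = (t i ^ 2) ^ 2 := by ring
    rw [this, e2]; ring
  rw [e2, e4]
  have h5 : 0 ≤ x * ((x - c) ^ 2 * (x + 2 * c)) := by positivity
  have h6 : x * ((x - c) ^ 2 * (x + 2 * c)) = x ^ 4 - 6 * x ^ 2 + 4 * c * x := by
    have e2 : c ^ 2 = 2 := by rw [pow_two, hc]
    have e3 : c ^ 3 = 2 * c := by rw [pow_succ, e2]
    ring_nf
    rw [e2, e3]
    ring
  rw [h6] at h5
  have h7 : 0 ≤ c / 8 * (x ^ 4 - 6 * x ^ 2 + 4 * c * x) := by positivity
  have h8 : c / 8 * (x ^ 4 - 6 * x ^ 2 + 4 * c * x) =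
      x - (3 / 4 * c * x ^ 2 - c / 8 * x ^ 4) + (c * c - 2) / 2 * x := by ring
  rw [h8, hc] at h7
  linarith

/-- a large value -/
theorem exists_large (t : ι → ℝ) {S : ℝ} (hS : 0 < S) (h2 : ∑ i, t i ^ 2 = S)
    (h4 : ∑ i, t i ^ 4 = 2 * S) : ∃ i, 2 ≤ t i ^ 2 := by
  by_contra hcon
  push Not at hcon
  have h1 : ∑ i, t i ^ 2 * (2 - t i ^ 2) = 0 := by
    have : ∀ i, t i ^ 2 * (2 - t i ^ 2) = 2 * t i ^ 2 - t i ^ 4 := fun i => by ring
    rw [Finset.sum_congr rfl fun i _ => this i, Finset.sum_sub_distrib, ← Finset.mul_sum, h2, h4]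
    ring
  have h3 := (Finset.sum_eq_zero_iff_of_nonneg fun i _ =>
    mul_nonneg (sq_nonneg (t i)) (by linarith [hcon i])).1 h1
  have h5 : ∀ i, t i ^ 2 = 0 := by
    intro i
    rcases mul_eq_zero.1 (h3 i (Finset.mem_univ _)) with h | h
    · exact h
    · linarith [hcon i]
  rw [Finset.sum_congr rfl fun i _ => h5 i, Finset.sum_const_zero] at h2
  linarith

end Pool.Agent.U200.WigReal
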